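import Pool.Agent.Helper85.P11.Base
import Pool.Agent.Helper83.P1C.StB

/-!
# The level `289`: twelve values determine a symbol

The list of steps has been made by a program.
-/

set_option autoImplicit false

namespace Pool.Agent.Helper83.P17

open Pool.Agent.Helper14.CV (Homog EqC act Tl StFar StFex)
open Pool.Agent.Helper28.WK (SymP Tw evw Ok)
open Pool.Agent.Helper85.T5C (cls_of)
open Pool.Agent.Helper85.P11 (Inv okA fin1 inv_sq)

/-- Representatives. -/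
private def LA : List (ℤ × ℤ × ℤ × ℤ) :=
  [(0, 1, -1, 0), (0, -1, 1, 1), (0, 1, -1, 8), (0, -1, 1, 6), (0, 1, -1, 4), (0, -1, 1, 7),
    (0, -1, 1, 3), (0, -1, 1, 5), (0, 1, -1, 2), (0, -1, 1, 2), (0, 1, -1, 5), (0, 1, -1, 3),
    (0, 1, -1, 7), (0, -1, 1, 4), (0, 1, -1, 6), (0, -1, 1, 8), (0, 1, -1, 1), (1, 0, 0, 1),
    (1, 0, 1, 1), (1, 0, 2, 1), (1, 0, 3, 1), (1, 0, 4, 1), (1, 0, 5, 1), (1, 0, 6, 1),
    (1, 0, 7, 1), (1, 0, 8, 1), (1, 0, -8, 1), (1, 0, -7, 1), (1, 0, -6, 1), (1, 0, -5, 1),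
    (1, 0, -4, 1), (1, 0, -3, 1), (1, 0, -2, 1), (1, 0, -1, 1), (1, 1, 0, 1), (1, 1, -1, 0),
    (-1, -1, 2, 1), (1, 1, 7, 8), (-1, -1, 7, 6), (1, 1, 3, 4), (-1, -1, 8, 7), (-1, -1, 4, 3),
    (-1, -1, 6, 5), (1, 1, 1, 2), (-1, -1, 3, 2), (1, 1, 4, 5), (1, 1, 2, 3), (1, 1, 6, 7),
    (-1, -1, 5, 4), (1, 1, 5, 6), (9, -8, -1, 1), (1, -8, 0, 1), (2, 1, -1, 0), (2, 1, 1, 1),
    (-2, -1, 3, 1), (2, 1, 15, 8), (11, -3, -7, 2), (2, 1, 7, 4), (-7, 5, -3, 2),
    (-3, 7, -1, 2), (-2, -1, 11, 5), (2, 1, 3, 2), (-2, -1, 5, 2), (2, 1, 9, 5), (2, 1, 5, 3),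
    (2, 1, 13, 7), (9, -4, -2, 1), (-5, 6, -1, 1), (1, 6, 0, 1), (3, 1, -1, 0), (-7, -8, 1, 1),
    (3, 1, 2, 1), (-3, -1, 4, 1), (1, 6, 1, 7), (8, -3, -5, 2), (-1, -6, 1, 5), (-2, 5, -1, 2),
    (4, 7, 1, 2), (-3, -1, 16, 5), (2, -5, -1, 3), (11, -2, -5, 1), (3, 1, 14, 5),
    (-8, 3, -3, 1), (-13, 7, -2, 1), (5, -4, -1, 1), (1, -4, 0, 1), (4, 1, -1, 0),
    (7, 6, 1, 1), (-15, -8, 2, 1), (4, 1, 3, 1), (16, 21, 3, 4), (5, 14, 1, 3), (5, -3, -3, 2),
    (8, -15, -1, 2), (3, 5, 1, 2), (-21, 16, -4, 3), (-1, 4, -1, 3), (-3, -5, 2, 3),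
    (9, -2, -4, 1), (-14, 5, -3, 1), (-5, 3, -2, 1), (-6, 7, -1, 1), (1, 7, 0, 1),
    (5, 1, -1, 0), (-3, -4, 1, 1), (-7, 2, -11, 3), (-1, -7, 1, 6), (-3, -4, 16, 21),
    (-5, -1, 6, 1), (20, -13, -3, 2), (2, -3, -1, 2), (-2, 3, -5, 7), (8, 5, 3, 2),
    (-5, 16, -1, 3), (3, 4, 2, 3), (2, -3, -3, 5), (7, -2, -3, 1), (-9, 5, -2, 1),
    (-2, 3, -1, 1), (1, 3, 0, 1), (6, 1, -1, 0), (8, 7, 1, 1), (-7, -4, 2, 1), (-3, 8, -2, 5),
    (-1, -3, 5, 14), (6, 1, 5, 1), (-6, -1, 7, 1), (7, -13, -1, 2), (-1, -3, 1, 2),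
    (-2, 11, -1, 5), (3, -8, -1, 3), (1, 3, 5, 16), (1, 3, 1, 4), (-5, 2, -3, 1),
    (5, -2, -2, 1), (-4, 5, -1, 1), (1, 5, 0, 1), (7, 1, -1, 0), (4, 3, 1, 1), (3, -2, -7, 5),
    (1, 5, 1, 6), (-3, 2, -5, 3), (-3, 2, -20, 13), (7, 1, 6, 1), (5, -9, -1, 2),
    (2, -7, -3, 11), (-4, -3, 3, 2), (-2, 7, -1, 3), (-5, -8, 2, 3), (4, 3, 21, 16),
    (16, -5, -3, 1), (-3, 2, -2, 1), (3, -2, -1, 1), (1, -2, 0, 1), (8, 1, -1, 0),
    (6, 5, 1, 1), (7, 3, 2, 1), (1, -2, -2, 5), (-1, 2, -8, 15), (-1, 2, -2, 3),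
    (-1, 2, -7, 13), (-1, 2, -5, 9), (-4, -9, 1, 2), (-3, -11, 2, 7), (1, -2, -1, 3),
    (5, 7, 2, 3), (-1, 2, -3, 5), (-1, 2, -4, 7), (11, -5, -2, 1), (-1, 2, -1, 1),
    (1, 2, 0, 1), (-8, 1, -1, 0), (-1, -2, 1, 1), (11, 5, 2, 1), (-1, -2, 4, 7),
    (-1, -2, 3, 5), (5, -7, -2, 3), (1, 2, 1, 3), (-3, 11, -2, 7), (-4, 9, -1, 2),
    (-1, -2, 5, 9), (-1, -2, 7, 13), (-1, -2, 2, 3), (-1, -2, 8, 15), (1, 2, 2, 5),
    (7, -3, -2, 1), (6, -5, -1, 1), (1, -5, 0, 1), (-7, 1, -1, 0), (3, 2, 1, 1),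
    (-3, -2, 2, 1), (16, 5, 3, 1), (4, -3, -21, 16), (-5, 8, -2, 3), (-2, -7, 1, 3),
    (-4, 3, -3, 2), (2, 7, 3, 11), (5, 9, 1, 2), (7, -1, -6, 1), (-3, -2, 20, 13),
    (-3, -2, 5, 3), (1, -5, -1, 6), (3, 2, 7, 5), (4, -3, -1, 1), (1, -3, 0, 1),
    (-6, 1, -1, 0), (-4, -5, 1, 1), (5, 2, 2, 1), (-5, -2, 3, 1), (1, -3, -1, 4),
    (1, -3, -5, 16), (3, 8, 1, 3), (-2, -11, 1, 5), (-1, 3, -1, 2), (7, 13, 1, 2),
    (-6, 1, -7, 1), (6, -1, -5, 1), (-1, 3, -5, 14), (-3, -8, 2, 5), (-7, 4, -2, 1),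
    (8, -7, -1, 1), (1, -7, 0, 1), (-5, 1, -1, 0), (-2, -3, 1, 1), (-9, -5, 2, 1),
    (7, 2, 3, 1), (2, 3, 3, 5), (3, -4, -2, 3), (-5, -16, 1, 3), (8, -5, -3, 2),
    (-2, -3, 5, 7), (2, 3, 1, 2), (20, 13, 3, 2), (-5, 1, -6, 1), (-3, 4, -16, 21),
    (-1, 7, -1, 6), (-7, -2, 11, 3), (-3, 4, -1, 1), (1, 4, 0, 1), (-4, 1, -1, 0),
    (-6, -7, 1, 1), (-5, -3, 2, 1), (-14, -5, 3, 1), (9, 2, 4, 1), (-3, 5, -2, 3),
    (-1, -4, 1, 3), (-21, -16, 4, 3), (3, -5, -1, 2), (8, 15, 1, 2), (5, 3, 3, 2),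
    (5, -14, -1, 3), (16, -21, -3, 4), (4, -1, -3, 1), (-15, 8, -2, 1), (7, -6, -1, 1),
    (1, -6, 0, 1), (-3, 1, -1, 0), (5, 4, 1, 1), (-13, -7, 2, 1), (-8, -3, 3, 1),
    (3, -1, -14, 5), (11, 2, 5, 1), (2, 5, 1, 3), (-3, 1, -16, 5), (4, -7, -1, 2),
    (-2, -5, 1, 2), (-1, 6, -1, 5), (8, 3, 5, 2), (1, -6, -1, 7), (-3, 1, -4, 1),
    (3, -1, -2, 1), (-7, 8, -1, 1), (1, 8, 0, 1), (-2, 1, -1, 0), (-5, -6, 1, 1), (9, 4, 2, 1),
    (2, -1, -13, 7), (2, -1, -5, 3), (2, -1, -9, 5), (-2, 1, -5, 2), (2, -1, -3, 2),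
    (-2, 1, -11, 5), (-3, -7, 1, 2), (-7, -5, 3, 2), (2, -1, -7, 4), (11, 3, 7, 2),
    (2, -1, -15, 8), (-2, 1, -3, 1), (2, -1, -1, 1), (1, -1, 0, 1), (-1, 1, -1, 0),
    (9, 8, 1, 1), (1, -1, -5, 6), (-1, 1, -5, 4), (1, -1, -6, 7), (1, -1, -2, 3),
    (1, -1, -4, 5), (-1, 1, -3, 2), (1, -1, -1, 2), (-1, 1, -6, 5), (-1, 1, -4, 3),
    (-1, 1, -8, 7), (1, -1, -3, 4), (-1, 1, -7, 6), (1, -1, -7, 8), (-1, 1, -2, 1)]

/-- Vectors with the same value. -/
private def Ks : List (ℤ × ℤ) :=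
  [(0, 1), (1, 0), (1, 1), (1, 8), (1, 6), (1, 4), (1, 7), (1, 3), (1, 5), (1, 2), (9, 1),
    (8, 1), (2, 1), (2, 3), (2, 15), (11, 7), (3, 2), (2, 7), (7, 3), (5, 2), (3, 1), (7, 2),
    (2, 11), (2, 5), (2, 9), (2, 13), (9, 2), (4, 1), (5, 1), (6, 1), (7, 1), (3, 4), (6, 7),
    (8, 5), (6, 5), (3, 16), (5, 3), (11, 5), (3, 14), (8, 3), (13, 2), (15, 2), (4, 3),
    (16, 3), (21, 4), (14, 3), (9, 4), (7, 11), (7, 6), (4, 21), (5, 6), (20, 3), (3, 7),
    (3, 5), (3, 20), (11, 2)]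

/-- The points of the projective line. -/
private def Pt : List (ZMod 17 × ZMod 17) :=
  [(1, 0), (0, 1), (1, 1), (2, 1), (3, 1), (4, 1), (5, 1), (6, 1), (7, 1), (8, 1), (9, 1),
    (10, 1), (11, 1), (12, 1), (13, 1), (14, 1), (15, 1), (16, 1)]

private instance : Fact (Nat.Prime 17) := ⟨by norm_num⟩

set_option maxRecDepth 100000 in
private lemma clsA : ∀ p q r s : ZMod 17, p * s - q * r = 1 → ∃ t ∈ LA,
    q * (t.1 : ZMod 17) - p * (t.2.1 : ZMod 17) = 0 ∧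
      r * (t.2.2.2 : ZMod 17) - s * (t.2.2.1 : ZMod 17) = 0 :=
  cls_of Pt LA (by decide) (by decide) (by decide)

set_option maxRecDepth 100000 in
private lemma chkA : ∀ t ∈ LA, okA Ks t := by decide

private lemma dvdp {n : ℤ} : (17 : ℤ) ∣ n ↔ (n : ZMod 17) = 0 :=
  (ZMod.intCast_zmod_eq_zero_iff_dvd n 17).symm

private theorem main289 (hfar : StFar) {F : ℤ → ℤ → ℂ} (h : Inv 17 17 1 F) {κ : ℂ}
    (k0 : F 1 0 = κ) (b0 : F 0 1 = κ)
    (k2_1 : F 2 1 = κ) (k3_1 : F 3 1 = κ) (k4_1 : F 4 1 = κ)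
    (k5_1 : F 5 1 = κ) (k6_1 : F 6 1 = κ) (k7_1 : F 7 1 = κ)
    (k8_1 : F 8 1 = κ) (k3_2 : F 3 2 = κ) (k5_2 : F 5 2 = κ)
    (k5_3 : F 5 3 = κ) :
    EqC F 0 := by
  have hs : ∀ (k x y : ℤ), k ≠ 0 → (x ≠ 0 ∨ y ≠ 0) → F (k * x) (k * y) = F x y := h.hom
  have st : ∀ x y : ℤ, (x ≠ 0 ∨ y ≠ 0) → F (-x) y = F x y := h.st
  have sw : ∀ x y : ℤ, (x ≠ 0 ∨ y ≠ 0) → F (-y) (1 * x) - κ = -(F x y - κ) := by
    intro x y hv
    have e := h.sw x y 1 0 hv (by norm_num)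
    rw [neg_zero, mul_one, b0, k0] at e
    exact e
  have cl : ∀ x y : ℤ, (x ≠ 0 ∨ y ≠ 0) → F x y = κ → ∀ k X Y : ℤ, k ≠ 0 →
      ((X = k * x ∧ Y = k * y) ∨ (X = -(k * x) ∧ Y = k * y)) → F X Y = κ := by
    rintro x y hv hx k X Y hk (⟨rfl, rfl⟩ | ⟨rfl, rfl⟩)
    · rw [hs k x y hk hv, hx]
    · have e : -(k * x) = k * (-x) := by ring
      rw [e, hs k (-x) y hk (by rcases hv with h | h; exacts [Or.inl (neg_ne_zero.2 h), Or.inr h]),
        st x y hv, hx]
  have sk : ∀ x y X Y k : ℤ, ((x ≠ 0 ∨ y ≠ 0) ∧ (X ≠ 0 ∨ Y ≠ 0) ∧ k ≠ 0 ∧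
      ((-y = k * X ∧ 1 * x = k * Y) ∨ (-y = -(k * X) ∧ 1 * x = k * Y))) →
      F X Y = 2 * κ - F x y := by
    rintro x y X Y k ⟨hv, hV, hk, h1 | h1⟩
    · have e := sw x y hv
      rw [h1.1, h1.2, hs k X Y hk hV] at e
      linear_combination e
    · have e := sw x y hv
      have e1 : -(k * X) = k * (-X) := by ring
      rw [h1.1, h1.2, e1, hs k (-X) Y hk
        (by rcases hV with h | h; exacts [Or.inl (neg_ne_zero.2 h), Or.inr h]), st X Y hV] at e
      linear_combination e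
  have wk : ∀ x y X Y k : ℤ, ((x ≠ 0 ∨ y ≠ 0) ∧ (X ≠ 0 ∨ Y ≠ 0) ∧ k ≠ 0 ∧
      ((-y = k * X ∧ 1 * x = k * Y) ∨ (-y = -(k * X) ∧ 1 * x = k * Y))) → F x y = κ →
      F X Y = κ := by
    intro x y X Y k hc hx
    linear_combination sk x y X Y k hc - hx
  have stn : ∀ x y X : ℤ, (X = -x ∧ (x ≠ 0 ∨ y ≠ 0)) → F X y = F x y := by
    rintro x y X ⟨rfl, hv⟩
    exact st x y hv
  have G : ∀ a b c d : ℤ, a * d - 17 * b * (17 * c) = 1 → ∀ x y z w X Y Z W k l : ℤ,
      ((x ≠ 0 ∨ y ≠ 0) ∧ (z ≠ 0 ∨ w ≠ 0) ∧ (X ≠ 0 ∨ Y ≠ 0) ∧ (Z ≠ 0 ∨ W ≠ 0) ∧ k ≠ 0 ∧ l ≠ 0 ∧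
        a * x + 17 * b * y = k * X ∧ 17 * c * x + d * y = k * Y ∧
        a * z + 17 * b * w = l * Z ∧ 17 * c * z + d * w = l * W) →
      F X Y - F Z W = F x y - F z w := by
    rintro a b c d hT x y z w X Y Z W k l ⟨n1, n2, n3, n4, hk, hl, q1, q2, q3, q4⟩
    have e := h.gam a b c d hT x y z w n1 n2
    rw [q1, q2, q3, q4, hs k X Y hk n3, hs l Z W hl n4] at e
    exact e
  have e1 : F (1) (1) = F (1) (1) := by
    linear_combination (G (-18) (1) (-1) (16) (by decide) (1) (1) (1) (1) (1) (1) (1) (1) (-1) (-1) (by decide))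
  have c1_1 : F 1 1 = κ := (by linear_combination (sk (1) (1) (1) (1) (1) (by decide) - e1) / 2)
  have c1_8 : F 1 8 = κ := wk (8) (1) (1) (8) (1) (by decide) k8_1
  have c1_6 : F 1 6 = κ := wk (6) (1) (1) (6) (1) (by decide) k6_1
  have c1_4 : F 1 4 = κ := wk (4) (1) (1) (4) (1) (by decide) k4_1
  have c1_7 : F 1 7 = κ := wk (7) (1) (1) (7) (1) (by decide) k7_1
  have c1_3 : F 1 3 = κ := wk (3) (1) (1) (3) (1) (by decide) k3_1
  have c1_5 : F 1 5 = κ := wk (5) (1) (1) (5) (1) (by decide) k5_1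
  have c1_2 : F 1 2 = κ := wk (2) (1) (1) (2) (1) (by decide) k2_1
  have e2 : F (-8) (1) = F (9) (1) := by
    linear_combination (G (1) (-1) (0) (1) (by decide) (9) (1) (1) (0) (-8) (1) (1) (0) (1) (1) (by decide))
  have c9_1 : F 9 1 = κ := (e2.symm.trans (cl 8 1 (by decide) k8_1 (1) (-8) (1) (by decide) (by decide)))
  have c2_3 : F 2 3 = κ := wk (3) (2) (2) (3) (1) (by decide) k3_2
  have e3 : F (-7) (3) = F (2) (15) := by
    linear_combination (G (-124) (1) (3) (-7) (by decide) (2) (15) (1) (7) (-7) (3) (-5) (2) (-1) (1) (by decide)) + (cl 5 2 (by decide) k5_2 (1) (-5) (2) (by decide) (by decide)) - c1_7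
  have e5 : F (4) (9) = F (1) (2) := by
    linear_combination 1 / 2 * (G (-38) (1) (-5) (38) (by decide) (1) (2) (4) (9) (4) (9) (1) (2) (-1) (1) (by decide))
  have c4_9 : F 4 9 = κ := e5.trans c1_2
  have e4 : F (3) (7) = F (7) (3) := by
    linear_combination (G (-15) (2) (-2) (77) (by decide) (7) (3) (2) (1) (3) (7) (4) (9) (-1) (1) (by decide)) + c4_9 - k2_1
  have c7_3 : F 7 3 = κ := (by linear_combination (sk (7) (3) (3) (7) (1) (by decide) - e4) / 2)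
  have c2_15 : F 2 15 = κ := (e3.symm.trans (cl 7 3 (by decide) c7_3 (1) (-7) (3) (by decide) (by decide)))
  have c3_5 : F 3 5 = κ := wk (5) (3) (3) (5) (1) (by decide) k5_3
  have e6 : F (7) (11) = F (11) (7) := by
    linear_combination (G (-21) (2) (-2) (55) (by decide) (11) (7) (5) (3) (7) (11) (3) (5) (1) (-1) (by decide)) + c3_5 - k5_3
  have c11_7 : F 11 7 = κ := (by linear_combination (sk (11) (7) (7) (11) (1) (by decide) - e6) / 2)
  have e7 : F (-19) (4) = F (-3) (14) := by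
    linear_combination (G (-165) (-2) (2) (7) (by decide) (-3) (14) (-1) (5) (-19) (4) (-5) (1) (-1) (1) (by decide)) + (cl 5 1 (by decide) k5_1 (1) (-5) (1) (by decide) (by decide)) - (cl 1 5 (by decide) c1_5 (1) (-1) (5) (by decide) (by decide))
  have e9 : F (2) (9) = F (9) (2) := by
    linear_combination (G (-4) (1) (-1) (72) (by decide) (9) (2) (4) (1) (2) (9) (1) (4) (-1) (1) (by decide)) + c1_4 - k4_1
  have c9_2 : F 9 2 = κ := (by linear_combination (sk (9) (2) (2) (9) (1) (by decide) - e9) / 2)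
  have e8 : F (-14) (3) = F (-6) (7) := by
    linear_combination (G (-77) (-4) (1) (15) (by decide) (-6) (7) (-1) (1) (-14) (3) (-9) (2) (1) (-1) (by decide)) + (cl 9 2 (by decide) c9_2 (1) (-9) (2) (by decide) (by decide)) - (cl 1 1 (by decide) c1_1 (1) (-1) (1) (by decide) (by decide))
  have e10 : F (20) (3) = F (2) (13) := by
    linear_combination (G (-231) (2) (-2) (5) (by decide) (2) (13) (1) (7) (20) (3) (7) (1) (-1) (1) (by decide)) + k7_1 - c1_7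
  have e11 : F (11) (7) = F (2) (13) := by
    linear_combination (G (-105) (1) (-4) (11) (by decide) (2) (13) (1) (6) (11) (7) (3) (2) (1) (-1) (by decide)) + k3_2 - c1_6
  have c2_13 : F 2 13 = κ := (e11.symm.trans c11_7)
  have c20_3 : F 20 3 = κ := e10.trans c2_13
  have e12 : F (13) (2) = F (7) (11) := by
    linear_combination (G (-105) (4) (-1) (11) (by decide) (7) (11) (2) (3) (13) (2) (6) (1) (1) (-1) (by decide)) + k6_1 - c2_3
  have e13 : F (11) (7) = F (7) (11) := by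
    linear_combination (G (-55) (2) (-2) (21) (by decide) (7) (11) (3) (5) (11) (7) (5) (3) (-1) (1) (by decide)) + k5_3 - c3_5
  have c7_11 : F 7 11 = κ := (by linear_combination (sk (7) (11) (11) (7) (1) (by decide) - e13) / 2)
  have c13_2 : F 13 2 = κ := e12.trans c7_11
  have e14 : F (15) (4) = F (12) (5) := by
    linear_combination (G (-65) (9) (-1) (40) (by decide) (12) (5) (7) (3) (15) (4) (4) (1) (-1) (1) (by decide)) + k4_1 - c7_3
  have e15 : F (12) (5) = F (-1) (8) := by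
    linear_combination (G (-124) (-1) (-3) (-7) (by decide) (-1) (8) (-1) (7) (12) (5) (5) (2) (-1) (1) (by decide)) + k5_2 - (cl 1 7 (by decide) c1_7 (1) (-1) (7) (by decide) (by decide))
  have c12_5 : F 12 5 = κ := e15.trans (cl 1 8 (by decide) c1_8 (1) (-1) (8) (by decide) (by decide))
  have c15_4 : F 15 4 = κ := e14.trans c12_5
  have e17 : F (4) (3) = F (3) (4) := by
    linear_combination (G (-24) (1) (-1) (12) (by decide) (3) (4) (2) (3) (4) (3) (3) (2) (-1) (1) (by decide)) + k3_2 - c2_3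
  have c3_4 : F 3 4 = κ := (by linear_combination (sk (3) (4) (4) (3) (1) (by decide) - e17) / 2)
  have e18 : F (5) (1) = F (2) (11) := by
    linear_combination (G (-96) (1) (-1) (3) (by decide) (2) (11) (1) (6) (5) (1) (6) (1) (-1) (1) (by decide)) + k6_1 - c1_6
  have c2_11 : F 2 11 = κ := (e18.symm.trans k5_1)
  have e16 : F (4) (5) = F (-3) (16) := by
    linear_combination (G (-92) (-1) (-7) (-22) (by decide) (-3) (16) (-2) (11) (4) (5) (3) (4) (1) (-1) (by decide)) + c3_4 - (cl 2 11 (by decide) c2_11 (1) (-2) (11) (by decide) (by decide))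
  have e19 : F (16) (3) = F (3) (16) := by
    linear_combination (G (-96) (1) (-1) (3) (by decide) (3) (16) (1) (6) (16) (3) (6) (1) (-1) (1) (by decide)) + k6_1 - c1_6
  have c3_16 : F 3 16 = κ := (by linear_combination (sk (3) (16) (16) (3) (1) (by decide) - e19) / 2)
  have c4_5 : F 4 5 = κ := e16.trans (cl 3 16 (by decide) c3_16 (1) (-3) (16) (by decide) (by decide))
  have l20 : F (-7) (2) = κ := by
    linear_combination (-1/2) * (G (-18) (-7) (-5) (-562) (by decide) (-13) (2) (-20) (3) (4) (19) (3) (14) (-1) (1) (by decide)) +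
      (-1/2) * e7 +
      (1) * e8 +
      (1) * (G (-62) (-3) (-1) (-14) (by decide) (-4) (5) (-6) (7) (7) (2) (15) (4) (-1) (1) (by decide)) +
      -(1/2) * (sk (-14) (3) (3) (14) (-1) (by decide)) +
      -(-1/2) * (cl 20 3 (by decide) c20_3 (1) (-20) (3) (by decide) (by decide)) +
      -(-1/2) * (sk (-19) (4) (4) (19) (-1) (by decide)) +
      -(1/2) * (cl 13 2 (by decide) c13_2 (1) (-13) (2) (by decide) (by decide)) +
      -(1/2) * (sk (-14) (3) (-3) (14) (-1) (by decide)) +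
      -(-1) * c15_4 +
      -(1) * (stn (-7) (2) (7) (by decide)) +
      -(-1) * (cl 4 5 (by decide) c4_5 (1) (-4) (5) (by decide) (by decide))
  have c7_2 : F 7 2 = κ := cl (-7) (2) (by decide) l20 (1) (7) (2) (by decide) (by decide)
  have c2_7 : F 2 7 = κ := wk (-7) (2) (2) (7) (-1) (by decide) (cl 7 2 (by decide) c7_2 (1) (-7) (2) (by decide) (by decide))
  have c2_5 : F 2 5 = κ := wk (5) (2) (2) (5) (1) (by decide) k5_2
  have e21 : F (9) (2) = F (2) (9) := by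
    linear_combination (G (-72) (1) (-1) (4) (by decide) (2) (9) (1) (4) (9) (2) (4) (1) (1) (-1) (by decide)) + k4_1 - c1_4
  have c2_9 : F 2 9 = κ := (by linear_combination (sk (2) (9) (9) (2) (1) (by decide) - e21) / 2)
  have e22 : F (-15) (4) = F (6) (7) := by
    linear_combination (G (-62) (3) (1) (-14) (by decide) (6) (7) (4) (5) (-15) (4) (-7) (2) (1) (-1) (by decide)) + (cl 7 2 (by decide) c7_2 (1) (-7) (2) (by decide) (by decide)) - c4_5
  have c6_7 : F 6 7 = κ := (e22.symm.trans (cl 15 4 (by decide) c15_4 (1) (-15) (4) (by decide) (by decide)))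
  have e23 : F (8) (5) = F (2) (3) := by
    linear_combination (G (-55) (2) (-2) (21) (by decide) (2) (3) (3) (5) (8) (5) (5) (3) (-1) (1) (by decide)) + k5_3 - c3_5
  have c8_5 : F 8 5 = κ := e23.trans c2_3
  have e26 : F (11) (2) = F (1) (5) := by
    linear_combination (G (-96) (1) (-1) (3) (by decide) (1) (5) (1) (6) (11) (2) (6) (1) (-1) (1) (by decide)) + k6_1 - c1_6
  have c11_2 : F 11 2 = κ := e26.trans c1_5
  have e27 : F (3) (4) = F (4) (3) := by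
    linear_combination (G (-12) (1) (-1) (24) (by decide) (4) (3) (3) (2) (3) (4) (2) (3) (1) (-1) (by decide)) + c2_3 - k3_2
  have c4_3 : F 4 3 = κ := (by linear_combination (sk (4) (3) (3) (4) (1) (by decide) - e27) / 2)
  have e25 : F (-16) (3) = F (5) (4) := by
    linear_combination (G (-92) (7) (1) (-22) (by decide) (5) (4) (4) (3) (-16) (3) (-11) (2) (-1) (1) (by decide)) + (cl 11 2 (by decide) c11_2 (1) (-11) (2) (by decide) (by decide)) - c4_3
  have e28 : F (3) (16) = F (16) (3) := by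
    linear_combination (G (-3) (1) (-1) (96) (by decide) (16) (3) (6) (1) (3) (16) (1) (6) (1) (-1) (by decide)) + c1_6 - k6_1
  have c16_3 : F 16 3 = κ := (by linear_combination (sk (16) (3) (3) (16) (1) (by decide) - e28) / 2)
  have c5_4 : F 5 4 = κ := (e25.symm.trans (cl 16 3 (by decide) c16_3 (1) (-16) (3) (by decide) (by decide)))
  have e24 : F (6) (5) = F (-1) (4) := by
    linear_combination (G (-62) (-1) (-3) (-14) (by decide) (-1) (4) (-2) (7) (6) (5) (5) (4) (-1) (1) (by decide)) + c5_4 - (cl 2 7 (by decide) c2_7 (1) (-2) (7) (by decide) (by decide))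
  have c6_5 : F 6 5 = κ := e24.trans (cl 1 4 (by decide) c1_4 (1) (-1) (4) (by decide) (by decide))
  have e29 : F (5) (11) = F (11) (5) := by
    linear_combination (G (-15) (2) (-2) (77) (by decide) (11) (5) (2) (1) (5) (11) (4) (9) (1) (1) (by decide)) + c4_9 - k2_1
  have c11_5 : F 11 5 = κ := (by linear_combination (sk (11) (5) (5) (11) (1) (by decide) - e29) / 2)
  have e31 : F (8) (9) = F (9) (8) := by
    linear_combination (G (-16) (1) (-1) (18) (by decide) (9) (8) (1) (1) (8) (9) (1) (1) (-1) (1) (by decide))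
  have c9_8 : F 9 8 = κ := (by linear_combination (sk (9) (8) (8) (9) (1) (by decide) - e31) / 2)
  have e30 : F (7) (6) = F (3) (14) := by
    linear_combination (G (-77) (1) (-4) (15) (by decide) (3) (14) (1) (4) (7) (6) (9) (8) (1) (-1) (by decide)) + c9_8 - c1_4
  have e32 : F (7) (6) = F (-4) (15) := by
    linear_combination (G (-62) (-1) (-3) (-14) (by decide) (-4) (15) (-2) (7) (7) (6) (5) (4) (-1) (1) (by decide)) + c5_4 - (cl 2 7 (by decide) c2_7 (1) (-2) (7) (by decide) (by decide))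
  have e35 : F (9) (4) = F (2) (1) := by
    linear_combination 1 / 2 * (G (-38) (5) (-1) (38) (by decide) (2) (1) (9) (4) (9) (4) (2) (1) (1) (-1) (by decide))
  have c9_4 : F 9 4 = κ := e35.trans k2_1
  have e34 : F (7) (3) = F (3) (7) := by
    linear_combination (G (-77) (2) (-2) (15) (by decide) (3) (7) (1) (2) (7) (3) (9) (4) (1) (-1) (by decide)) + c9_4 - c1_2
  have c3_7 : F 3 7 = κ := (by linear_combination (sk (3) (7) (7) (3) (1) (by decide) - e34) / 2)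
  have e33 : F (4) (15) = F (5) (12) := by
    linear_combination (G (-40) (1) (-9) (65) (by decide) (5) (12) (3) (7) (4) (15) (1) (4) (1) (-1) (by decide)) + c1_4 - c3_7
  have e36 : F (-8) (1) = F (5) (12) := by
    linear_combination (G (-124) (3) (1) (-7) (by decide) (5) (12) (2) (5) (-8) (1) (-7) (1) (1) (-1) (by decide)) + (cl 7 1 (by decide) k7_1 (1) (-7) (1) (by decide) (by decide)) - c2_5
  have c5_12 : F 5 12 = κ := (e36.symm.trans (cl 8 1 (by decide) k8_1 (1) (-8) (1) (by decide) (by decide)))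
  have c4_15 : F 4 15 = κ := e33.trans c5_12
  have c7_6 : F 7 6 = κ := e32.trans (cl 4 15 (by decide) c4_15 (1) (-4) (15) (by decide) (by decide))
  have c3_14 : F 3 14 = κ := (e30.symm.trans c7_6)
  have e37 : F (3) (8) = F (8) (3) := by
    linear_combination (G (-6) (1) (-1) (48) (by decide) (8) (3) (3) (1) (3) (8) (1) (3) (1) (-1) (by decide)) + c1_3 - k3_1
  have c8_3 : F 8 3 = κ := (by linear_combination (sk (8) (3) (3) (8) (1) (by decide) - e37) / 2)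
  have e38 : F (15) (2) = F (-3) (7) := by
    linear_combination (G (-124) (-3) (-1) (-7) (by decide) (-3) (7) (-2) (5) (15) (2) (7) (1) (1) (-1) (by decide)) + k7_1 - (cl 2 5 (by decide) c2_5 (1) (-2) (5) (by decide) (by decide))
  have c15_2 : F 15 2 = κ := e38.trans (cl 3 7 (by decide) c3_7 (1) (-3) (7) (by decide) (by decide))
  have e39 : F (21) (4) = F (-1) (1) := by
    linear_combination (G (-89) (-4) (-1) (-13) (by decide) (-1) (1) (-3) (4) (21) (4) (5) (1) (1) (-1) (by decide)) + k5_1 - (cl 3 4 (by decide) c3_4 (1) (-3) (4) (by decide) (by decide))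
  have c21_4 : F 21 4 = κ := e39.trans (cl 1 1 (by decide) c1_1 (1) (-1) (1) (by decide) (by decide))
  have e40 : F (14) (3) = F (6) (7) := by
    linear_combination (G (-77) (4) (-1) (15) (by decide) (6) (7) (1) (1) (14) (3) (9) (2) (1) (-1) (by decide)) + c9_2 - c1_1
  have c14_3 : F 14 3 = κ := e40.trans c6_7
  have e41 : F (-1) (1) = F (4) (21) := by
    linear_combination (G (-89) (1) (4) (-13) (by decide) (4) (21) (1) (5) (-1) (1) (-4) (3) (-1) (1) (by decide)) + (cl 4 3 (by decide) c4_3 (1) (-4) (3) (by decide) (by decide)) - c1_5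
  have c4_21 : F 4 21 = κ := (e41.symm.trans (cl 1 1 (by decide) c1_1 (1) (-1) (1) (by decide) (by decide)))
  have e42 : F (-4) (1) = F (5) (6) := by
    linear_combination (G (-62) (3) (1) (-14) (by decide) (5) (6) (4) (5) (-4) (1) (-7) (2) (1) (-1) (by decide)) + (cl 7 2 (by decide) c7_2 (1) (-7) (2) (by decide) (by decide)) - c4_5
  have c5_6 : F 5 6 = κ := (e42.symm.trans (cl 4 1 (by decide) k4_1 (1) (-4) (1) (by decide) (by decide)))
  have e43 : F (13) (2) = F (3) (20) := by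
    linear_combination (G (-231) (2) (-2) (5) (by decide) (3) (20) (1) (7) (13) (2) (7) (1) (-1) (1) (by decide)) + k7_1 - c1_7
  have c3_20 : F 3 20 = κ := (e43.symm.trans c13_2)
  have hK : ∀ c ∈ Ks, F c.1 c.2 = κ := by
    intro c hc
    simp only [Ks, List.mem_cons, List.not_mem_nil, or_false] at hc
    rcases hc with rfl | rfl | rfl | rfl | rfl | rfl | rfl | rfl | rfl | rfl | rfl | rfl | rfl | rfl | rfl | rfl | rfl | rfl | rfl | rfl | rfl | rfl | rfl | rfl | rfl | rfl | rfl | rfl | rfl | rfl | rfl | rfl | rfl | rfl | rfl | rfl | rfl | rfl | rfl | rfl | rfl | rfl | rfl | rfl | rfl | rfl | rfl | rfl | rfl | rfl | rfl | rfl | rfl | rfl | rfl | rfl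
    · exact b0
    · exact k0
    · exact c1_1
    · exact c1_8
    · exact c1_6
    · exact c1_4
    · exact c1_7
    · exact c1_3
    · exact c1_5
    · exact c1_2
    · exact c9_1
    · exact k8_1
    · exact k2_1
    · exact c2_3
    · exact c2_15
    · exact c11_7
    · exact k3_2
    · exact c2_7
    · exact c7_3
    · exact k5_2
    · exact k3_1
    · exact c7_2
    · exact c2_11
    · exact c2_5
    · exact c2_9
    · exact c2_13
    · exact c9_2
    · exact k4_1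
    · exact k5_1
    · exact k6_1
    · exact k7_1
    · exact c3_4
    · exact c6_7
    · exact c8_5
    · exact c6_5
    · exact c3_16
    · exact k5_3
    · exact c11_5
    · exact c3_14
    · exact c8_3
    · exact c13_2
    · exact c15_2
    · exact c4_3
    · exact c16_3
    · exact c21_4
    · exact c14_3
    · exact c9_4
    · exact c7_11
    · exact c7_6
    · exact c4_21
    · exact c5_6
    · exact c20_3
    · exact c3_7
    · exact c3_5
    · exact c3_20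
    · exact c11_2
  refine fin1 hfar h κ Ks hK LA chkA (fun p q r s hd => ?_)
  have hc : (p : ZMod 17) * s - q * r = 1 := by
    have h' := congrArg (Int.cast : ℤ → ZMod 17) hd
    push_cast at h'
    exact h'
  obtain ⟨t, htL, c1, c2⟩ := clsA _ _ _ _ hc
  exact ⟨t, htL, dvdp.2 (by push_cast; exact c1), dvdp.2 (by push_cast; exact c2)⟩

/-- The coordinates at level `289`. -/
def a17 : (ℤ → ℤ → ℂ) →ₗ[ℂ] (Fin 11 → ℂ) where
  toFun K := ![K 0 1 - K 1 0, K 2 17 - K 1 0, K 3 17 - K 1 0, K 4 17 - K 1 0, K 5 17 - K 1 0,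
    K 6 17 - K 1 0, K 7 17 - K 1 0, K 8 17 - K 1 0, K 3 34 - K 1 0, K 5 34 - K 1 0, K 5 51 - K 1 0]
  map_add' K L := by
    funext i
    fin_cases i <;> simp <;> ring
  map_smul' s K := by
    funext i
    fin_cases i <;> simp <;> ring

/-- Level `289`. -/
theorem bsP17 (hfar : StFar) : Pool.Agent.Helper83.P1C.BsP 17 11 a17 := by
  intro K hS hW hst ha
  have f0 : K 0 1 - K 1 0 = 0 := congrFun ha 0
  have f1 : K 2 17 - K 1 0 = 0 := congrFun ha 1
  have f2 : K 3 17 - K 1 0 = 0 := congrFun ha 2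
  have f3 : K 4 17 - K 1 0 = 0 := congrFun ha 3
  have f4 : K 5 17 - K 1 0 = 0 := congrFun ha 4
  have f5 : K 6 17 - K 1 0 = 0 := congrFun ha 5
  have f6 : K 7 17 - K 1 0 = 0 := congrFun ha 6
  have f7 : K 8 17 - K 1 0 = 0 := congrFun ha 7
  have f8 : K 3 34 - K 1 0 = 0 := congrFun ha 8
  have f9 : K 5 34 - K 1 0 = 0 := congrFun ha 9
  have f10 : K 5 51 - K 1 0 = 0 := congrFun ha 10
  have hI := inv_sq (by norm_num) hS hW hst
  norm_num at hI
  have hH := hS.1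
  have hc := main289 hfar hI (κ := K 1 0) (by norm_num) (by
      have := hH 17 0 1 (by norm_num) (by norm_num)
      norm_num at this ⊢
      rw [this]; exact sub_eq_zero.1 f0)
    (by norm_num; exact sub_eq_zero.1 f1)
    (by norm_num; exact sub_eq_zero.1 f2)
    (by norm_num; exact sub_eq_zero.1 f3)
    (by norm_num; exact sub_eq_zero.1 f4)
    (by norm_num; exact sub_eq_zero.1 f5)
    (by norm_num; exact sub_eq_zero.1 f6)
    (by norm_num; exact sub_eq_zero.1 f7)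
    (by norm_num; exact sub_eq_zero.1 f8)
    (by norm_num; exact sub_eq_zero.1 f9)
    (by norm_num; exact sub_eq_zero.1 f10)
  obtain ⟨c, hc⟩ := hc
  refine ⟨c, fun p q hpq => ?_⟩
  have e1 := hc (17 * p) q (by omega)
  have e2 := hH 17 p q (by norm_num) hpq
  simp only at e1
  rw [← e2, e1]
  simp

end Pool.Agent.Helper83.P17
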