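import Pool.Agent.Helper85.P11.M_Core
import Pool.Agent.Helper83.P1C.StB

/-!
# The level `17`

The list of steps has been made by a program.
-/

set_option autoImplicit false

namespace Pool.Agent.Helper83.P17

open Pool.Agent.Helper14.CV (Homog EqC act Tl StFar StFex)
open Pool.Agent.Helper28.WK (SymP Tw evw Ok)
open Pool.Agent.Helper85.P11 (Inv okA fin1 inv_of vals)

/-- Representatives. -/
private def LA : List (ℤ × ℤ × ℤ × ℤ) :=
  [(1, 0, 0, 1), (0, 1, -1, 0), (1, 0, 1, 1), (1, 0, 2, 1), (1, 0, 3, 1), (1, 0, 4, 1),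
    (1, -1, -2, 3), (0, -1, 1, 3), (-1, 1, -3, 2), (0, 1, -1, 2), (0, -1, 1, 2),
    (-1, -1, 3, 2), (0, 1, -1, 3), (1, 1, 2, 3), (1, 0, -4, 1), (1, 0, -3, 1), (1, 0, -2, 1),
    (1, 0, -1, 1)]

/-- Vectors with the same value. -/
private def Ks : List (ℤ × ℤ) :=
  [(1, 0), (0, 1), (1, 1), (1, 2), (1, 3), (1, 4)]

set_option maxRecDepth 100000 in
private lemma clsA : ∀ r s : ZMod 17, (r ≠ 0 ∨ s ≠ 0) → ∃ t ∈ LA,
    r * (t.2.2.2 : ZMod 17) - s * (t.2.2.1 : ZMod 17) = 0 := by decide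

set_option maxRecDepth 100000 in
private lemma chkA : ∀ t ∈ LA, okA Ks t := by decide

private lemma dvdp {n : ℤ} : (17 : ℤ) ∣ n ↔ (n : ZMod 17) = 0 :=
  (ZMod.intCast_zmod_eq_zero_iff_dvd n 17).symm

private theorem main17 (hfar : StFar) {F : ℤ → ℤ → ℂ} (h : Inv 1 17 17 F) {κ : ℂ}
    (k0 : F 1 0 = κ) (b0 : F 0 1 = κ) (k2 : F 1 2 = κ) :
    EqC F 0 := by
  have hs : ∀ (k x y : ℤ), k ≠ 0 → (x ≠ 0 ∨ y ≠ 0) → F (k * x) (k * y) = F x y := h.hom
  have st : ∀ x y : ℤ, (x ≠ 0 ∨ y ≠ 0) → F (-x) y = F x y := h.st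
  have sw : ∀ x y : ℤ, (x ≠ 0 ∨ y ≠ 0) → F (-y) (17 * x) - κ = -(F x y - κ) := by
    intro x y hv
    have e := h.sw x y 1 0 hv (by norm_num)
    have e2 := hs 17 0 1 (by norm_num) (by norm_num)
    rw [mul_zero, mul_one, b0] at e2
    rw [neg_zero, mul_one, e2, k0] at e
    exact e
  have cl : ∀ x y : ℤ, (x ≠ 0 ∨ y ≠ 0) → F x y = κ → ∀ k X Y : ℤ, k ≠ 0 →
      ((X = k * x ∧ Y = k * y) ∨ (X = -(k * x) ∧ Y = k * y)) → F X Y = κ := by
    rintro x y hv hx k X Y hk (⟨rfl, rfl⟩ | ⟨rfl, rfl⟩)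
    · rw [hs k x y hk hv, hx]
    · have e : -(k * x) = k * (-x) := by ring
      rw [e, hs k (-x) y hk (by rcases hv with h | h; exacts [Or.inl (neg_ne_zero.2 h), Or.inr h]),
        st x y hv, hx]
  have sk : ∀ x y X Y k : ℤ, ((x ≠ 0 ∨ y ≠ 0) ∧ (X ≠ 0 ∨ Y ≠ 0) ∧ k ≠ 0 ∧
      ((-y = k * X ∧ 17 * x = k * Y) ∨ (-y = -(k * X) ∧ 17 * x = k * Y))) →
      F X Y = 2 * κ - F x y := by
    rintro x y X Y k ⟨hv, hV, hk, h1 | h1⟩
    · have e := sw x y hv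
      rw [h1.1, h1.2, hs k X Y hk hV] at e
      linear_combination e
    · have e := sw x y hv
      have e1 : -(k * X) = k * (-X) := by ring
      rw [h1.1, h1.2, e1, hs k (-X) Y hk
        (by rcases hV with h | h; exacts [Or.inl (neg_ne_zero.2 h), Or.inr h]), st X Y hV] at e
      linear_combination e
  have wk : ∀ x y X Y k : ℤ, ((x ≠ 0 ∨ y ≠ 0) ∧ (X ≠ 0 ∨ Y ≠ 0) ∧ k ≠ 0 ∧
      ((-y = k * X ∧ 17 * x = k * Y) ∨ (-y = -(k * X) ∧ 17 * x = k * Y))) → F x y = κ →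
      F X Y = κ := by
    intro x y X Y k hc hx
    linear_combination sk x y X Y k hc - hx
  have stn : ∀ x y X : ℤ, (X = -x ∧ (x ≠ 0 ∨ y ≠ 0)) → F X y = F x y := by
    rintro x y X ⟨rfl, hv⟩
    exact st x y hv
  have G : ∀ a b c d : ℤ, a * d - 1 * b * (17 * c) = 1 → ∀ x y z w X Y Z W k l : ℤ,
      ((x ≠ 0 ∨ y ≠ 0) ∧ (z ≠ 0 ∨ w ≠ 0) ∧ (X ≠ 0 ∨ Y ≠ 0) ∧ (Z ≠ 0 ∨ W ≠ 0) ∧ k ≠ 0 ∧ l ≠ 0 ∧
        a * x + 1 * b * y = k * X ∧ 17 * c * x + d * y = k * Y ∧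
        a * z + 1 * b * w = l * Z ∧ 17 * c * z + d * w = l * W) →
      F X Y - F Z W = F x y - F z w := by
    rintro a b c d hT x y z w X Y Z W k l ⟨n1, n2, n3, n4, hk, hl, q1, q2, q3, q4⟩
    have e := h.gam a b c d hT x y z w n1 n2
    rw [q1, q2, q3, q4, hs k X Y hk n3, hs l Z W hl n4] at e
    exact e
  have e1 : F (0) (1) = F (1) (1) := by
    linear_combination (G (1) (-1) (0) (1) (by decide) (1) (1) (1) (0) (0) (1) (1) (0) (1) (1) (by decide))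
  have c1_1 : F 1 1 = κ := (e1.symm.trans b0)
  have e2 : F (1) (4) = F (0) (1) := by
    linear_combination 1 / 2 * (G (4) (-1) (1) (-4) (by decide) (0) (1) (1) (4) (1) (4) (0) (1) (-1) (1) (by decide))
  have c1_4 : F 1 4 = κ := e2.trans b0
  have l3 : F (-1) (3) = κ := by
    linear_combination (1/2) * (G (5) (-2) (-1) (7) (by decide) (1) (2) (1) (3) (-1) (3) (-1) (4) (-1) (1) (by decide)) +
      -(-1/2) * (cl 1 4 (by decide) c1_4 (1) (-1) (4) (by decide) (by decide)) +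
      -(1/2) * (stn (-1) (3) (1) (by decide)) +
      -(-1/2) * k2
  have c1_3 : F 1 3 = κ := cl (-1) (3) (by decide) l3 (1) (1) (3) (by decide) (by decide)
  have hK : ∀ c ∈ Ks, F c.1 c.2 = κ := by
    intro c hc
    simp only [Ks, List.mem_cons, List.not_mem_nil, or_false] at hc
    rcases hc with rfl | rfl | rfl | rfl | rfl | rfl
    · exact k0
    · exact b0
    · exact c1_1
    · exact k2
    · exact c1_3
    · exact c1_4
  refine fin1 hfar h κ Ks hK LA chkA (fun p q r s hd => ?_)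
  have hc : (r : ZMod 17) ≠ 0 ∨ (s : ZMod 17) ≠ 0 := by
    by_contra hcon
    push Not at hcon
    have h' := congrArg (Int.cast : ℤ → ZMod 17) hd
    push_cast at h'
    rw [hcon.1, hcon.2, mul_zero, mul_zero, sub_zero] at h'
    exact absurd h' (by decide)
  obtain ⟨t, htL, c2⟩ := clsA _ _ hc
  exact ⟨t, htL, one_dvd _, dvdp.2 (by push_cast; exact c2)⟩

/-- Level `17`. -/
theorem hCore17 (hfar : StFar) : Pool.Agent.Helper83.P1C.CoreVP 17 1 := by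
  intro F hS hW hst hev
  have h := inv_of hS hW hst
  obtain ⟨k1, k2⟩ := vals (by norm_num) h hev
  have h' : Inv 1 17 17 F := by norm_num at h; exact h
  exact main17 hfar h' rfl k1 k2

end Pool.Agent.Helper83.P17
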