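import Pool.Agent.Helper83.P1C.Fin
import Pool.Agent.Helper83.P17.M_Bs17
import Pool.Agent.Helper83.P17.M_Core17
import Pool.Agent.Helper38.CV.M_Far

/-!
# Levels `17^n`: the cores and weight two from the bounds
-/

set_option autoImplicit false

open UpperHalfPlane CongruenceSubgroup
open scoped MatrixGroups

namespace Pool.Agent.Helper83.P17

open Pool.Agent.Helper28.TL (IsNewN)
open Pool.Agent.Helper14.CV (G0)
open Pool.Agent.Helper83.P1C

theorem bs17 : BsP 17 11 a17 := bsP17 Pool.Agent.Helper38.CV.hFar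

theorem core1_17 : CoreVP 17 1 := hCore17 Pool.Agent.Helper38.CV.hFar

/-- The core for levels `17^n`, `n ≥ 3`, from the bounds. -/
theorem core3_17 {dd : ℕ → ℕ} (ub : UBP 17 dd) (lb : LBP 17 11 dd) : CoreP 17 :=
  coreP (by norm_num) bs17 ub lb

/-- The core for the level `289`, from the lower bound. -/
theorem core2_17 {dd : ℕ → ℕ} (lb : LBP 17 11 dd) : CoreVP 17 2 :=
  core2P (by norm_num) bs17 lb

/-- Weight two, levels `17^n`: nonvanishing at the centre for root number one, from the bounds. -/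
theorem lval17Of {dd : ℕ → ℕ} (ub : UBP 17 dd) (lb : LBP 17 11 dd)
    (n : ℕ) [NeZero (17 ^ n)] (f : CuspForm (G0 (17 ^ n)) 2) (hf : IsNewN f)
    (hR : Pool.Agent.Helper14.CV.RootOne f) : Pool.Agent.Helper14.CV.Lan f (1 / 2) ≠ 0 :=
  lvalOf (by norm_num) bs17 core1_17 ub lb n f hf hR

end Pool.Agent.Helper83.P17
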